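import Pool.Agent.Helper86.QA.St2

/-! # Project QD, part A: module EN3 -/

set_option autoImplicit false

open MeasureTheory Matrix Set Topology
open scoped ENNReal ComplexConjugate

namespace Pool.Agent.Helper22.QA

open Pool.Agent.Helper86.QA

private theorem int_mA {A B : Set ℂ} (hm : Measurable (aw B)) {D : Set ℂ} (hD : MeasurableSet D)
    (hDA : D ⊆ A) (F : ℂ → ℝ≥0∞) (hF : Measurable F) :
    ∫⁻ ξ in D, F ξ ∂(mA A B) = ∫⁻ ξ in D, aw B ξ * F ξ := by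
  unfold mA
  rw [restrict_withDensity hD, Measure.restrict_restrict hD, Set.inter_eq_left.2 hDA,
    lintegral_withDensity_eq_lintegral_mul _ hm hF]
  rfl

private theorem int_mA' {A B : Set ℂ} (hm : Measurable (aw B)) (F : ℂ → ℝ≥0∞)
    (hF : Measurable F) :
    ∫⁻ ξ, F ξ ∂(mA A B) = ∫⁻ ξ in A, aw B ξ * F ξ := by
  unfold mA
  rw [lintegral_withDensity_eq_lintegral_mul _ hm hF]
  rfl

private theorem meas_en (hCHI : StCHI) (hHME : StHME) (B : Set ℂ) (hB : MeasurableSet B) :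
    Measurable (en B) := by
  have h1 := (hHME.2.2.1 B hB).1
  have h2 := hCHI.2.2.2.2.2
  have h3 : Measurable (fun p : Pt × Pt =>
      ENNReal.ofReal (kk p.1 p.2 * (hv B p.1 - hv B p.2) ^ 2)) := by
    apply ENNReal.measurable_ofReal.comp
    exact h2.mul (((h1.comp measurable_fst).sub (h1.comp measurable_snd)).pow_const 2)
  exact h3.lintegral_prod_right'

private theorem cancel4 (a W : ℝ≥0∞) (h0 : W ≠ 0) (h1 : W ≠ ∞) : W * (a * W⁻¹) = a := by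
  rw [mul_comm a, ← mul_assoc, ENNReal.mul_inv_cancel h0 h1, one_mul]

private theorem meas_q : Measurable (fun p : ℂ × ℂ => ENNReal.ofReal (1 / ‖p.1 - p.2‖ ^ 4)) := by
  apply ENNReal.measurable_ofReal.comp
  exact measurable_const.div (((measurable_fst.sub measurable_snd).norm).pow_const 4)

private theorem meas_pp : Measurable (fun p : Pt × ℂ => ENNReal.ofReal (pp p.1 p.2 ^ 2)) := by
  apply ENNReal.measurable_ofReal.comp
  unfold pp
  have h1 : Measurable fun p : Pt × ℂ => p.1.1 := measurable_fst.comp measurable_fst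
  have h2 : Measurable fun p : Pt × ℂ => p.1.2 := measurable_snd.comp measurable_fst
  exact (h2.div (((h1.sub measurable_snd).norm.pow_const 2).add (h2.pow_const 2))).pow_const 2

/-- the kernel on `A × B` -/
private noncomputable def hh (A B : Set ℂ) (ξ η : ℂ) : ℝ≥0∞ :=
  ENNReal.ofReal (1 / ‖ξ - η‖ ^ 4) * (aw B ξ)⁻¹ * (aw A η)⁻¹

private theorem meas_hh (A B : Set ℂ) (hA : Measurable (aw A)) (hB : Measurable (aw B)) :
    Measurable (fun p : ℂ × ℂ => hh A B p.1 p.2) :=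
  (meas_q.mul (hB.comp measurable_fst).inv).mul (hA.comp measurable_snd).inv

private theorem inner_hh (A B : Set ℂ) (hA : Measurable (aw A))
    (hBm : MeasurableSet B)
    (ξ : ℂ) (h0 : aw B ξ ≠ 0) (h1 : aw B ξ ≠ ∞) (h2 : ∀ η ∈ B, aw A η ≠ 0 ∧ aw A η ≠ ∞) :
    ∫⁻ η, hh A B ξ η ∂(mA B A) = 1 := by
  have h30 : Measurable (fun η : ℂ => ENNReal.ofReal (1 / ‖ξ - η‖ ^ 4)) := by
    apply ENNReal.measurable_ofReal.comp
    exact measurable_const.div (((measurable_const.sub measurable_id).norm).pow_const 4)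
  have h3 : Measurable (fun η => hh A B ξ η) := (h30.mul_const _).mul hA.inv
  rw [int_mA' hA _ h3]
  have h4 : ∫⁻ η in B, aw A η * hh A B ξ η =
      ∫⁻ η in B, ENNReal.ofReal (1 / ‖ξ - η‖ ^ 4) * (aw B ξ)⁻¹ := by
    apply setLIntegral_congr_fun hBm
    intro η hη
    show aw A η * (ENNReal.ofReal (1 / ‖ξ - η‖ ^ 4) * (aw B ξ)⁻¹ * (aw A η)⁻¹) =
      ENNReal.ofReal (1 / ‖ξ - η‖ ^ 4) * (aw B ξ)⁻¹
    exact cancel4 _ _ (h2 η hη).1 (h2 η hη).2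
  rw [h4, lintegral_mul_const _ h30]
  exact ENNReal.mul_inv_cancel h0 h1

private theorem inner_hh' (A B : Set ℂ) (hB : Measurable (aw B))
    (hAm : MeasurableSet A)
    (η : ℂ) (h0 : aw A η ≠ 0) (h1 : aw A η ≠ ∞) (h2 : ∀ ξ ∈ A, aw B ξ ≠ 0 ∧ aw B ξ ≠ ∞) :
    ∫⁻ ξ, hh A B ξ η ∂(mA A B) = 1 := by
  rw [← inner_hh B A hB hAm η h0 h1 h2]
  apply lintegral_congr
  intro ξ
  unfold hh
  rw [norm_sub_rev]
  ring

variable {Γ : Type} [Group Γ]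

private theorem fin_pos (hAWB : StAWB) {ρ : Γ →* SL} {A B : Set ℂ} (h : KD ρ A B) :
    ∀ ξ ∈ A, aw B ξ ≠ 0 ∧ aw B ξ ≠ ∞ := by
  intro ξ hξ
  obtain ⟨-, -, h3, -⟩ := hAWB Γ ρ A B h
  obtain ⟨h4, h5⟩ := h3 ξ hξ
  refine ⟨fun h6 => ?_, h4⟩
  rw [h6, ENNReal.toReal_zero] at h5
  exact lt_irrefl _ h5

private theorem sc4 (hAWB : StAWB) {ρ : Γ →* SL} {A B : Set ℂ} (h : KD ρ A B) (γ : Γ) :
    ∀ ξ ∈ A, (aw B (mb (ρ γ) ξ))⁻¹ =
      (aw B ξ)⁻¹ * (ENNReal.ofReal (‖ρ γ 1 0 * ξ + ρ γ 1 1‖ ^ 4))⁻¹ := by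
  intro ξ hξ
  rw [(hAWB Γ ρ A B h).2.2.2 γ ξ hξ]
  exact ENNReal.mul_inv (Or.inr ENNReal.ofReal_ne_top) (Or.inl (fin_pos hAWB h ξ hξ).2)

private theorem f4 {w : ℂ} (hw : w ≠ 0) :
    ENNReal.ofReal (‖w‖ ^ 4) ≠ 0 ∧ ENNReal.ofReal (‖w‖ ^ 4) ≠ ∞ := by
  refine ⟨?_, ENNReal.ofReal_ne_top⟩
  have : 0 < ‖w‖ ^ 4 := by
    have := norm_pos_iff.2 hw
    positivity
  exact (ENNReal.ofReal_pos.2 this).ne'

private theorem hh_inv (hCHV : StCHV) (hAWB : StAWB) {ρ : Γ →* SL} {A B : Set ℂ}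
    (h : KD ρ A B) (h' : KD ρ B A) (γ : Γ) :
    ∀ ξ ∈ A, ∀ η ∈ B, hh A B (ab ρ γ ξ) (ab ρ γ η) = hh A B ξ η := by
  intro ξ hξ η hη
  unfold hh ab
  have h1 := (h.mpA γ ξ hξ).1
  have h2 := (h.mpB γ η hη).1
  rw [sc4 hAWB h γ ξ hξ, sc4 hAWB h' γ η hη, hCHV.2.2.1 (ρ γ) ξ η h1 h2]
  set u := ρ γ 1 0 * ξ + ρ γ 1 1 with hu
  set v := ρ γ 1 0 * η + ρ γ 1 1 with hv
  have h3 : ENNReal.ofReal (1 / ‖(ξ - η) / (u * v)‖ ^ 4) =
      ENNReal.ofReal (1 / ‖ξ - η‖ ^ 4) * ENNReal.ofReal (‖u‖ ^ 4) * ENNReal.ofReal (‖v‖ ^ 4) := by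
    rw [← ENNReal.ofReal_mul (by positivity), ← ENNReal.ofReal_mul (by positivity)]
    congr 1
    rw [norm_div, norm_mul]
    by_cases h5 : ‖ξ - η‖ = 0
    · simp [h5]
    · have h6 : ‖u‖ ≠ 0 := norm_ne_zero_iff.2 h1
      have h7 : ‖v‖ ≠ 0 := norm_ne_zero_iff.2 h2
      field_simp
  rw [h3]
  obtain ⟨h8, h9⟩ := f4 h1
  obtain ⟨h10, h11⟩ := f4 h2
  generalize ENNReal.ofReal (‖u‖ ^ 4) = F at *
  generalize ENNReal.ofReal (‖v‖ ^ 4) = G at *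
  generalize ENNReal.ofReal (1 / ‖ξ - η‖ ^ 4) = P at *
  calc P * F * G * ((aw B ξ)⁻¹ * F⁻¹) * ((aw A η)⁻¹ * G⁻¹)
      = P * (aw B ξ)⁻¹ * (aw A η)⁻¹ * (F * F⁻¹) * (G * G⁻¹) := by ring
    _ = _ := by rw [ENNReal.mul_inv_cancel h8 h9, ENNReal.mul_inv_cancel h10 h11, mul_one, mul_one]

private theorem sym_E (hCHV : StCHV) (hSW0 : StSW0) (hAWB : StAWB) (hACU : StACU)
    {ρ : Γ →* SL} {A B : Set ℂ} (h : KD ρ A B) {DA DB : Set ℂ} (hDA : FDOn (ab ρ) A DA)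
    (hDB : FDOn (ab ρ) B DB) :
    ∫⁻ ξ in DA, aw B ξ = ∫⁻ η in DB, aw A η := by
  obtain ⟨hc, -, hA1, hA2, -, -, h'⟩ := hACU Γ ρ A B h
  obtain ⟨-, -, hB1, hB2, -, -, -⟩ := hACU Γ ρ B A h'
  have := hc
  have := hA2
  have := hB2
  have mB := (hAWB Γ ρ A B h).1
  have mA' := (hAWB Γ ρ B A h').1
  have hA0 := h.opA.measurableSet
  have hB0 := h.opB.measurableSet
  have mh := meas_hh A B mA' mB
  have h1 := hSW0 Γ ℂ ℂ (ab ρ) (ab ρ) A DA B DB (mA A B) (mA B A) (hh A B) hA1 hB1 hDA hDB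
    mh (fun γ => hh_inv hCHV hAWB h h' γ)
  have h2 : ∫⁻ ξ in DA, ∫⁻ η, hh A B ξ η ∂(mA B A) ∂(mA A B) = ∫⁻ ξ in DA, aw B ξ := by
    have h3 : ∫⁻ ξ in DA, ∫⁻ η, hh A B ξ η ∂(mA B A) ∂(mA A B) =
        ∫⁻ ξ in DA, (fun _ => (1 : ℝ≥0∞)) ξ ∂(mA A B) := by
      apply setLIntegral_congr_fun hDA.mD
      intro ξ hξ
      have h4 := fin_pos hAWB h ξ (hDA.sub hξ)
      exact inner_hh A B mA' hB0 ξ h4.1 h4.2 (fin_pos hAWB h')
    rw [h3, int_mA mB hDA.mD hDA.sub _ measurable_const]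
    simp
  have h5 : ∫⁻ ξ, ∫⁻ η in DB, hh A B ξ η ∂(mA B A) ∂(mA A B) = ∫⁻ η in DB, aw A η := by
    rw [lintegral_lintegral_swap mh.aemeasurable]
    have h3 : ∫⁻ η in DB, ∫⁻ ξ, hh A B ξ η ∂(mA A B) ∂(mA B A) =
        ∫⁻ η in DB, (fun _ => (1 : ℝ≥0∞)) η ∂(mA B A) := by
      apply setLIntegral_congr_fun hDB.mD
      intro η hη
      have h4 := fin_pos hAWB h' η (hDB.sub hη)
      exact inner_hh' A B mB hA0 η h4.1 h4.2 (fin_pos hAWB h)
    rw [h3, int_mA mA' hDB.mD hDB.sub _ measurable_const]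
    simp
  rw [← h2, ← h5]
  exact h1

/-- the kernel on `up × A` -/
private noncomputable def hx (B : Set ℂ) (x : Pt) (ξ : ℂ) : ℝ≥0∞ :=
  ENNReal.ofReal (pp x ξ ^ 2) * en B x * (aw B ξ)⁻¹

private theorem half (hCHI : StCHI) (hPOI : StPOI) (hHME : StHME)
    (hEN2 : StEN2) (hSW0 : StSW0) (hAWB : StAWB) (hACU : StACU)
    {ρ : Γ →* SL} {A B : Set ℂ} (h : KD ρ A B) {D : Set Pt} {DA : Set ℂ}
    (hD : FDOn (au ρ) up D) (hDA : FDOn (ab ρ) A DA) :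
    ∫⁻ x in D, ENNReal.ofReal (Real.pi * hv A x) * en B x ∂vol ≤
      ENNReal.ofReal (2 * VV * Real.log ll) * ∫⁻ ξ in DA, aw B ξ := by
  obtain ⟨hc, hu, hA1, hA2, -, hen, -⟩ := hACU Γ ρ A B h
  have := hc
  have := hA2
  have mB := (hAWB Γ ρ A B h).1
  have hA0 := h.opA.measurableSet
  have hB0 := h.opB.measurableSet
  have mE := meas_en hCHI hHME B hB0
  have mh : Measurable (fun p : Pt × ℂ => hx B p.1 p.2) :=
    (meas_pp.mul (mE.comp measurable_fst)).mul (mB.comp measurable_snd).inv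
  have hinv : ∀ (γ : Γ), ∀ x ∈ up, ∀ ξ ∈ A, hx B (au ρ γ x) (ab ρ γ ξ) = hx B x ξ := by
    intro γ x hx0 ξ hξ
    unfold hx
    rw [(hen γ x hx0).1]
    unfold au ab
    have h1 := (h.mpA γ ξ hξ).1
    rw [sc4 hAWB h γ ξ hξ, hPOI.1 (ρ γ) x ξ hx0 h1]
    set u := ρ γ 1 0 * ξ + ρ γ 1 1 with hu
    have h2 : ENNReal.ofReal ((pp x ξ * ‖u‖ ^ 2) ^ 2) =
        ENNReal.ofReal (pp x ξ ^ 2) * ENNReal.ofReal (‖u‖ ^ 4) := by
      rw [← ENNReal.ofReal_mul (by positivity)]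
      congr 1
      ring
    rw [h2]
    obtain ⟨h8, h9⟩ := f4 h1
    generalize ENNReal.ofReal (‖u‖ ^ 4) = F at *
    calc ENNReal.ofReal (pp x ξ ^ 2) * F * en B x * ((aw B ξ)⁻¹ * F⁻¹)
        = ENNReal.ofReal (pp x ξ ^ 2) * en B x * (aw B ξ)⁻¹ * (F * F⁻¹) := by ring
      _ = _ := by rw [ENNReal.mul_inv_cancel h8 h9, mul_one]
  have h1 := hSW0 Γ Pt ℂ (au ρ) (ab ρ) up D A DA vol (mA A B) (hx B) hu hA1 hD hDA mh hinv
  have h2 : ∫⁻ x in D, ENNReal.ofReal (Real.pi * hv A x) * en B x ∂vol =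
      ∫⁻ x in D, ∫⁻ ξ, hx B x ξ ∂(mA A B) ∂vol := by
    apply setLIntegral_congr_fun hD.mD
    intro x hx0
    have hxu := hD.sub hx0
    have m1 : Measurable (fun ξ => hx B x ξ) := mh.comp measurable_prodMk_left
    have m2 : Measurable (fun ξ => ENNReal.ofReal (pp x ξ ^ 2)) :=
      meas_pp.comp measurable_prodMk_left
    show ENNReal.ofReal (Real.pi * hv A x) * en B x = ∫⁻ ξ, hx B x ξ ∂(mA A B)
    rw [int_mA' mB _ m1]
    have h4 : ∫⁻ ξ in A, aw B ξ * hx B x ξ =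
        ∫⁻ ξ in A, ENNReal.ofReal (pp x ξ ^ 2) * en B x := by
      apply setLIntegral_congr_fun hA0
      intro ξ hξ
      have h5 := fin_pos hAWB h ξ hξ
      show aw B ξ * (ENNReal.ofReal (pp x ξ ^ 2) * en B x * (aw B ξ)⁻¹) =
        ENNReal.ofReal (pp x ξ ^ 2) * en B x
      exact cancel4 _ _ h5.1 h5.2
    rw [h4, lintegral_mul_const _ m2]
    congr 1
    have h6 := (hHME.1 A x hA0 hxu).1
    rw [← ofReal_integral_eq_lintegral_ofReal h6 (Filter.Eventually.of_forall fun ξ => sq_nonneg _)]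
    congr 1
    unfold hv
    have hpi := Real.pi_ne_zero
    field_simp
  rw [h2, h1, lintegral_lintegral_swap mh.aemeasurable]
  have m3 : Measurable (fun ξ => ∫⁻ x, hx B x ξ ∂vol) := mh.lintegral_prod_left'
  rw [int_mA mB hDA.mD hDA.sub _ m3, ← lintegral_const_mul _ mB]
  apply setLIntegral_mono' hDA.mD
  intro ξ hξ
  have h5 := fin_pos hAWB h ξ (hDA.sub hξ)
  have m4 : Measurable (fun x => ENNReal.ofReal (pp x ξ ^ 2) * en B x) :=
    (meas_pp.comp measurable_prodMk_right).mul mE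
  have h6 : aw B ξ * ∫⁻ x, hx B x ξ ∂vol = ∫⁻ x, ENNReal.ofReal (pp x ξ ^ 2) * en B x ∂vol := by
    unfold hx
    rw [lintegral_mul_const _ m4]
    exact cancel4 _ _ h5.1 h5.2
  rw [h6]
  exact hEN2 B ξ hB0

theorem hEN3 (_hACT : StACT) (hCHI : StCHI) (hPOI : StPOI) (hCHV : StCHV) (hHME : StHME)
    (hEN2 : StEN2) (hSW0 : StSW0) (hAWB : StAWB) (hACU : StACU) (hPD3 : StPD3) : StEN3 := by
  intro Γ _ ρ A B h D DA hD hDA
  have h' := (hACU Γ ρ A B h).2.2.2.2.2.2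
  have hen := (hACU Γ ρ A B h).2.2.2.2.2.1
  obtain ⟨DB, hDB⟩ := (hPD3 Γ ρ B A h').2
  have hA0 := h.opA.measurableSet
  have hB0 := h.opB.measurableSet
  have h1 := half hCHI hPOI hHME hEN2 hSW0 hAWB hACU h hD hDA
  have h2 := half hCHI hPOI hHME hEN2 hSW0 hAWB hACU h' hD hDB
  rw [← sym_E hCHV hSW0 hAWB hACU h hDA hDB] at h2
  have mE := meas_en hCHI hHME A hA0
  have mE' := meas_en hCHI hHME B hB0
  have mv := (hHME.2.2.1 A hA0).1
  have h3 : ENNReal.ofReal Real.pi * ∫⁻ x in D, en A x ∂vol =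
      ∫⁻ x in D, ENNReal.ofReal (Real.pi * hv A x) * en B x ∂vol +
        ∫⁻ x in D, ENNReal.ofReal (Real.pi * hv B x) * en A x ∂vol := by
    rw [← lintegral_const_mul _ mE, ← lintegral_add_left]
    · apply setLIntegral_congr_fun hD.mD
      intro x hx0
      have hxu := hD.sub hx0
      have h4 := (hen 1 x hxu).2.2
      have h5 := hHME.2.1 A B x hA0 hB0 h.dis h.nul hxu
      have h6 := (hHME.1 A x hA0 hxu).2.1
      have h7 := (hHME.1 B x hB0 hxu).2.1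
      show ENNReal.ofReal Real.pi * en A x =
        ENNReal.ofReal (Real.pi * hv A x) * en B x + ENNReal.ofReal (Real.pi * hv B x) * en A x
      rw [← h4, ← add_mul, ← ENNReal.ofReal_add (mul_nonneg Real.pi_pos.le h6)
        (mul_nonneg Real.pi_pos.le h7), ← mul_add, h5, mul_one]
    · exact (ENNReal.measurable_ofReal.comp (mv.const_mul _)).mul mE'
  rw [h3]
  refine (add_le_add h1 h2).trans (le_of_eq ?_)
  rw [← add_mul]
  congr 1
  have h8 : (0 : ℝ) ≤ VV := by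
    unfold VV
    apply integral_nonneg
    intro y
    show 0 ≤ kk oo y
    unfold kk
    split_ifs <;> norm_num
  have h9 : (0 : ℝ) ≤ Real.log ll := by
    apply Real.log_nonneg
    unfold ll
    have := Real.sqrt_nonneg 3
    linarith
  rw [← ENNReal.ofReal_add (by positivity) (by positivity)]
  congr 1
  ring

end Pool.Agent.Helper22.QA
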